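import Pool.Agent.Lib_helper52.LQ.Defs
import Pool.Agent.Lib_helper16.LQ.R2
import Pool.Agent.Lib_helper86.LQ.R3

set_option autoImplicit false

namespace Pool.Agent.LQ

open MeasureTheory ENNReal Set Filter Topology Pool.Agent.EPS Pool.Agent.YG

variable {d : ℕ}

theorem lb_cl_meas (L : ℝ) (j : Fin d) : Measurable (cl L j) := by
  have h1 : Measurable (fun x : Eu d => x j) := (EuclideanSpace.proj j).continuous.measurable
  exact measurable_const.max (measurable_const.min h1)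

theorem lb_cl_bd (L : ℝ) (hL : 0 ≤ L) (j : Fin d) (x : Eu d) : |cl L j x| ≤ L := by
  unfold cl
  rw [abs_le]
  exact ⟨le_max_left _ _, max_le (by linarith) (min_le_left _ _)⟩

theorem lb_int {A : Type*} [MeasurableSpace A] (μ : Measure A) [IsProbabilityMeasure μ]
    {f : A → ℝ} (hf : Measurable f) {M : ℝ} (hM : ∀ x, |f x| ≤ M) : Integrable f μ :=
  Integrable.of_bound hf.aestronglyMeasurable M (ae_of_all _ fun x => by
    rw [Real.norm_eq_abs]
    exact hM x)

theorem lb_mul {A : Type*} {f g : A → ℝ} {M N : ℝ} (hf : ∀ x, |f x| ≤ M) (hg : ∀ x, |g x| ≤ N)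
    (x : A) : |f x * g x| ≤ M * N := by
  rw [abs_mul]
  exact mul_le_mul (hf x) (hg x) (abs_nonneg _) ((abs_nonneg _).trans (hf x))

theorem co_bd (L : ℝ) (hL : 0 ≤ L) (μ : Measure (Eu d)) [IsProbabilityMeasure μ] (j : Fin d) :
    Measurable (co L μ j) ∧ (∀ x, |co L μ j x| ≤ 2 * L) ∧ ∫ x, co L μ j x ∂μ = 0 ∧
      ∫ x, co L μ j x ^ 2 ∂μ ≤ L ^ 2 := by
  have hm := lb_cl_meas (d := d) L j
  have hb := lb_cl_bd (d := d) L hL j
  have hi : Integrable (cl L j) μ := lb_int μ hm hb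
  have hi2 : Integrable (fun x => cl L j x * cl L j x) μ := lb_int μ (hm.mul hm) (lb_mul hb hb)
  have hc : |∫ y, cl L j y ∂μ| ≤ L := by
    have h1 := norm_integral_le_of_norm_le_const (μ := μ) (f := cl L j) (C := L)
      (ae_of_all _ fun x => by
        rw [Real.norm_eq_abs]
        exact hb x)
    rw [Real.norm_eq_abs] at h1
    rw [probReal_univ, mul_one] at h1
    exact h1
  refine ⟨hm.sub measurable_const, ?_, ?_, ?_⟩
  · intro x
    unfold co
    refine (abs_sub _ _).trans ?_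
    have := hb x
    linarith
  · unfold co
    rw [integral_sub hi (integrable_const _), integral_const, probReal_univ, one_smul, sub_self]
  · have e1 : (fun x => co L μ j x ^ 2) = fun x => cl L j x * cl L j x -
        2 * (∫ y, cl L j y ∂μ) * cl L j x + (∫ y, cl L j y ∂μ) ^ 2 := by
      funext x
      unfold co
      ring
    have i1 : Integrable (fun x => 2 * (∫ y, cl L j y ∂μ) * cl L j x) μ := hi.const_mul _
    have i2 : Integrable (fun x => cl L j x * cl L j x - 2 * (∫ y, cl L j y ∂μ) * cl L j x) μ :=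
      hi2.sub i1
    rw [e1, integral_add i2 (integrable_const _), integral_sub hi2 i1, integral_const_mul,
      integral_const, probReal_univ, one_smul]
    have h2 : ∫ x, cl L j x * cl L j x ∂μ ≤ L ^ 2 := by
      have h3 : ∫ x, cl L j x * cl L j x ∂μ ≤ ∫ _x : Eu d, L ^ 2 ∂μ := by
        apply integral_mono hi2 (integrable_const _)
        intro x
        show cl L j x * cl L j x ≤ L ^ 2
        have := hb x
        rw [abs_le] at this
        nlinarith
      rw [integral_const, probReal_univ, one_smul] at h3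
      exact h3
    nlinarith [sq_nonneg (∫ y, cl L j y ∂μ)]

/-- the clipped coordinate is the coordinate -/
theorem lb_cl_eq (L : ℝ) (μ : Measure (Eu d)) (h : Sp L μ) (j : Fin d) :
    ∀ᵐ x ∂μ, cl L j x = x j := by
  filter_upwards [h.2] with x hx
  have h1 := hx j
  rw [abs_le] at h1
  unfold cl
  rw [min_eq_right h1.2, max_eq_right h1.1]

theorem lb_conv_int (β γ : Measure (Eu d)) (f : Eu d → ℝ) (hf : Measurable f) :
    ∫ v, f v ∂(β.conv γ) = ∫ p : Eu d × Eu d, f (p.1 + p.2) ∂(β.prod γ) := by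
  unfold Measure.conv
  exact integral_map (measurable_fst.add measurable_snd).aemeasurable hf.aestronglyMeasurable

theorem l_bb (L : ℝ) (hL : 0 ≤ L) (β γ : Measure (Eu d)) (hβ : Sp L β) (hγ : Sp L γ)
    (j : Fin d) (κ lV : Eu d → ℝ) (hκ : Rg β γ (co L γ j) κ) (hV : Rg γ β (co L β j) lV) :
    (∫ y, co L β j y ^ 2 ∂β) - ∫ v, lV v ^ 2 ∂(γ.conv β) =
      (∫ z, co L γ j z ^ 2 ∂γ) - ∫ v, κ v ^ 2 ∂(β.conv γ) ∧
    ∫ p : Eu d × Eu d, co L β j p.1 * κ (p.1 + p.2) ∂(β.prod γ) =
      (∫ z, co L γ j z ^ 2 ∂γ) - ∫ v, κ v ^ 2 ∂(β.conv γ) := by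
  have : IsProbabilityMeasure β := hβ.1.1
  have : IsProbabilityMeasure γ := hγ.1.1
  obtain ⟨y1, y2, y3, y4⟩ := co_bd L hL β j
  obtain ⟨z1, z2, z3, z4⟩ := co_bd L hL γ j
  have k1 := hκ.meas
  have k2 := hκ.bd (2 * L) z2
  have l1 := hV.meas
  have l2 := hV.bd (2 * L) y2
  have hcomm : γ.conv β = β.conv γ := Measure.conv_comm _ _
  -- the function of the sum
  set w : Eu d → ℝ := fun v => cl (2 * L) j v - (∫ y, cl L j y ∂β) - ∫ y, cl L j y ∂γ with hw
  have w1 : Measurable w := ((lb_cl_meas (2 * L) j).sub measurable_const).sub measurable_const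
  have w2 : ∀ v, |w v| ≤ 2 * L + |∫ y, cl L j y ∂β| + |∫ y, cl L j y ∂γ| := by
    intro v
    have h1 := lb_cl_bd (2 * L) (by linarith) j v
    rw [hw]
    refine (abs_sub _ _).trans ?_
    have h2 := abs_sub (cl (2 * L) j v) (∫ y, cl L j y ∂β)
    linarith
  have hae : ∀ᵐ p : Eu d × Eu d ∂(β.prod γ), w (p.1 + p.2) = co L β j p.1 + co L γ j p.2 := by
    have a1 : ∀ᵐ p : Eu d × Eu d ∂(β.prod γ), (∀ i, |p.1 i| ≤ L) := by
      have := (measurePreserving_fst (μ := β) (ν := γ)).quasiMeasurePreserving.ae hβ.2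
      exact this
    have a2 : ∀ᵐ p : Eu d × Eu d ∂(β.prod γ), (∀ i, |p.2 i| ≤ L) := by
      have := (measurePreserving_snd (μ := β) (ν := γ)).quasiMeasurePreserving.ae hγ.2
      exact this
    filter_upwards [a1, a2] with p h1 h2
    have b1 := h1 j
    have b2 := h2 j
    rw [abs_le] at b1 b2
    have e0 : (p.1 + p.2) j = p.1 j + p.2 j := rfl
    have e1 : cl (2 * L) j (p.1 + p.2) = p.1 j + p.2 j := by
      unfold cl
      rw [e0, min_eq_right (by linarith), max_eq_right (by linarith)]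
    have e2 : cl L j p.1 = p.1 j := by
      unfold cl
      rw [min_eq_right b1.2, max_eq_right b1.1]
    have e3 : cl L j p.2 = p.2 j := by
      unfold cl
      rw [min_eq_right b2.2, max_eq_right b2.1]
    rw [hw]
    unfold co
    show cl (2 * L) j (p.1 + p.2) - _ - _ = _
    rw [e1, e2, e3]
    ring
  -- conditional expectations
  have hs : Measurable fun p : Eu d × Eu d => p.1 + p.2 := measurable_fst.add measurable_snd
  have cK : ∀ h : Eu d → ℝ, Bm h → ∫ p : Eu d × Eu d, κ (p.1 + p.2) * h (p.1 + p.2) ∂(β.prod γ) =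
      ∫ p : Eu d × Eu d, co L γ j p.2 * h (p.1 + p.2) ∂(β.prod γ) := by
    intro h hh
    rw [hκ.eq h hh, lb_conv_int β γ (fun v => κ v * h v) (k1.mul hh.1)]
  have cL : ∀ h : Eu d → ℝ, Bm h → ∫ p : Eu d × Eu d, lV (p.1 + p.2) * h (p.1 + p.2) ∂(β.prod γ) =
      ∫ p : Eu d × Eu d, co L β j p.1 * h (p.1 + p.2) ∂(β.prod γ) := by
    intro h hh
    have e1 := hV.eq h hh
    rw [hcomm, lb_conv_int β γ (fun v => lV v * h v) (l1.mul hh.1)] at e1
    rw [← e1, ← integral_prod_swap]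
    apply integral_congr_ae
    refine ae_of_all _ fun p => ?_
    show co L β j p.1 * h (p.2 + p.1) = co L β j p.1 * h (p.1 + p.2)
    rw [add_comm]
  -- integrals of one variable
  have m1 : ∫ p : Eu d × Eu d, co L β j p.1 * co L β j p.1 ∂(β.prod γ) =
      ∫ y, co L β j y ^ 2 ∂β := by
    have e1 := integral_prod_mul (μ := β) (ν := γ) (fun y => co L β j y * co L β j y)
      (fun _ => (1 : ℝ))
    rw [integral_const, probReal_univ, one_smul, mul_one] at e1
    have e2 : (fun y => co L β j y * co L β j y) = fun y => co L β j y ^ 2 := by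
      funext y
      ring
    rw [← e2, ← e1]
    congr 1
    funext p
    ring
  have m2 : ∫ p : Eu d × Eu d, co L γ j p.2 * co L γ j p.2 ∂(β.prod γ) =
      ∫ y, co L γ j y ^ 2 ∂γ := by
    have e1 := integral_prod_mul (μ := β) (ν := γ) (fun _ => (1 : ℝ))
      (fun y => co L γ j y * co L γ j y)
    rw [integral_const, probReal_univ, one_smul, one_mul] at e1
    have e2 : (fun y => co L γ j y * co L γ j y) = fun y => co L γ j y ^ 2 := by
      funext y
      ring
    rw [← e2, ← e1]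
    congr 1
    funext p
    ring
  have m3 : ∫ p : Eu d × Eu d, co L β j p.1 * co L γ j p.2 ∂(β.prod γ) = 0 := by
    rw [integral_prod_mul (μ := β) (ν := γ) (co L β j) (co L γ j), y3, zero_mul]
  have m4 : ∫ p : Eu d × Eu d, co L γ j p.2 * co L β j p.1 ∂(β.prod γ) = 0 := by
    rw [← m3]
    congr 1
    funext p
    ring
  -- bounded functions on the product
  have by1 : ∀ p : Eu d × Eu d, |co L β j p.1| ≤ 2 * L := fun p => y2 _
  have bz1 : ∀ p : Eu d × Eu d, |co L γ j p.2| ≤ 2 * L := fun p => z2 _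
  have bk1 : ∀ p : Eu d × Eu d, |κ (p.1 + p.2)| ≤ 2 * L := fun p => k2 _
  have bl1 : ∀ p : Eu d × Eu d, |lV (p.1 + p.2)| ≤ 2 * L := fun p => l2 _
  have my : Measurable fun p : Eu d × Eu d => co L β j p.1 := y1.comp measurable_fst
  have mz : Measurable fun p : Eu d × Eu d => co L γ j p.2 := z1.comp measurable_snd
  have mk : Measurable fun p : Eu d × Eu d => κ (p.1 + p.2) := k1.comp hs
  have ml : Measurable fun p : Eu d × Eu d => lV (p.1 + p.2) := l1.comp hs
  -- expand the product with the function of the sum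
  have ex : ∀ f : Eu d × Eu d → ℝ, Measurable f → (∀ p, |f p| ≤ 2 * L) →
      ∫ p : Eu d × Eu d, f p * w (p.1 + p.2) ∂(β.prod γ) =
        ∫ p : Eu d × Eu d, f p * co L β j p.1 ∂(β.prod γ) +
        ∫ p : Eu d × Eu d, f p * co L γ j p.2 ∂(β.prod γ) := by
    intro f hf hb
    have n1 : Integrable (fun p : Eu d × Eu d => f p * co L β j p.1) (β.prod γ) :=
      lb_int _ (hf.mul my) (lb_mul hb by1)
    have n2 : Integrable (fun p : Eu d × Eu d => f p * co L γ j p.2) (β.prod γ) :=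
      lb_int _ (hf.mul mz) (lb_mul hb bz1)
    rw [← integral_add n1 n2]
    apply integral_congr_ae
    filter_upwards [hae] with p hp
    rw [hp]
    ring
  have wB : Bm w := ⟨w1, _, w2⟩
  have q1 := cK w wB
  have q2 := cL w wB
  have q3 := ex (fun p => κ (p.1 + p.2)) mk bk1
  have q4 := ex (fun p => lV (p.1 + p.2)) ml bl1
  have q5 := ex (fun p => co L γ j p.2) mz bz1
  have q6 := ex (fun p => co L β j p.1) my by1
  have q7 := cK κ ⟨k1, _, k2⟩
  have q8 := cL lV ⟨l1, _, l2⟩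
  have q9 := cK lV ⟨l1, _, l2⟩
  have q10 := cL κ ⟨k1, _, k2⟩
  have s1 : ∫ p : Eu d × Eu d, κ (p.1 + p.2) * co L β j p.1 ∂(β.prod γ) =
      ∫ p : Eu d × Eu d, co L β j p.1 * κ (p.1 + p.2) ∂(β.prod γ) := by
    congr 1
    funext p
    ring
  have s2 : ∫ p : Eu d × Eu d, κ (p.1 + p.2) * co L γ j p.2 ∂(β.prod γ) =
      ∫ p : Eu d × Eu d, co L γ j p.2 * κ (p.1 + p.2) ∂(β.prod γ) := by
    congr 1
    funext p
    ring
  have s3 : ∫ p : Eu d × Eu d, lV (p.1 + p.2) * co L β j p.1 ∂(β.prod γ) =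
      ∫ p : Eu d × Eu d, co L β j p.1 * lV (p.1 + p.2) ∂(β.prod γ) := by
    congr 1
    funext p
    ring
  have s4 : ∫ p : Eu d × Eu d, lV (p.1 + p.2) * co L γ j p.2 ∂(β.prod γ) =
      ∫ p : Eu d × Eu d, co L γ j p.2 * lV (p.1 + p.2) ∂(β.prod γ) := by
    congr 1
    funext p
    ring
  have s5 : ∫ p : Eu d × Eu d, κ (p.1 + p.2) * lV (p.1 + p.2) ∂(β.prod γ) =
      ∫ p : Eu d × Eu d, lV (p.1 + p.2) * κ (p.1 + p.2) ∂(β.prod γ) := by
    congr 1
    funext p
    ring
  have t1 : ∫ v, κ v ^ 2 ∂(β.conv γ) =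
      ∫ p : Eu d × Eu d, κ (p.1 + p.2) * κ (p.1 + p.2) ∂(β.prod γ) := by
    rw [lb_conv_int β γ (fun v => κ v ^ 2) (k1.pow_const 2)]
    congr 1
    funext p
    ring
  have t2 : ∫ v, lV v ^ 2 ∂(γ.conv β) =
      ∫ p : Eu d × Eu d, lV (p.1 + p.2) * lV (p.1 + p.2) ∂(β.prod γ) := by
    rw [hcomm, lb_conv_int β γ (fun v => lV v ^ 2) (l1.pow_const 2)]
    congr 1
    funext p
    ring
  constructor
  · linarith
  · linarith

end Pool.Agent.LQ
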