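import Pool.Agent.Lib_helper52.LQ.Defs
import Pool.Agent.Lib_helper37.LQ.R0
import Pool.Agent.Lib_helper90.LQ.R1
import Pool.Agent.Lib_helper16.LQ.R2
import Pool.Agent.Lib_helper58.LQ.LB

set_option autoImplicit false

namespace Pool.Agent.LQ

open MeasureTheory ENNReal Set Filter Topology Pool.Agent.EPS Pool.Agent.YG

variable {d : ℕ}

/-- products of bounded measurable functions are integrable -/
theorem ls_int (μ : Measure (Eu d)) [IsProbabilityMeasure μ] {f g : Eu d → ℝ}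
    (hf : Measurable f) (hg : Measurable g) {M : ℝ} (hfM : ∀ x, |f x| ≤ M)
    (hgM : ∀ x, |g x| ≤ M) : Integrable (fun x => f x * g x) μ := by
  refine Integrable.of_bound (hf.mul hg).aestronglyMeasurable (M * M) (ae_of_all _ fun x => ?_)
  rw [Real.norm_eq_abs, abs_mul]
  exact mul_le_mul (hfM x) (hgM x) (abs_nonneg _) ((abs_nonneg _).trans (hfM x))

/-- Cauchy-Schwarz -/
theorem ls_cs (μ : Measure (Eu d)) [IsProbabilityMeasure μ] {f g : Eu d → ℝ}
    (hf : Measurable f) (hg : Measurable g) {M : ℝ} (hfM : ∀ x, |f x| ≤ M)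
    (hgM : ∀ x, |g x| ≤ M) :
    (∫ x, f x * g x ∂μ) ^ 2 ≤ (∫ x, f x * f x ∂μ) * ∫ x, g x * g x ∂μ := by
  have i1 := ls_int μ hf hf hfM hfM
  have i2 := ls_int μ hf hg hfM hgM
  have i3 := ls_int μ hg hg hgM hgM
  have key : ∀ t : ℝ, 0 ≤ (∫ x, f x * f x ∂μ) * (t * t) + 2 * (∫ x, f x * g x ∂μ) * t +
      ∫ x, g x * g x ∂μ := by
    intro t
    have h1 : ∫ x, (t * f x + g x) ^ 2 ∂μ = (∫ x, f x * f x ∂μ) * (t * t) +
        2 * (∫ x, f x * g x ∂μ) * t + ∫ x, g x * g x ∂μ := by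
      have e1 : (fun x => (t * f x + g x) ^ 2) = fun x => (t * t) * (f x * f x) +
          (2 * t) * (f x * g x) + g x * g x := by
        funext x
        ring
      have i4 : Integrable (fun x => (t * t) * (f x * f x)) μ := i1.const_mul _
      have i5 : Integrable (fun x => (2 * t) * (f x * g x)) μ := i2.const_mul _
      have i6 : Integrable (fun x => (t * t) * (f x * f x) + (2 * t) * (f x * g x)) μ :=
        i4.add i5
      rw [e1, integral_add i6 i3, integral_add i4 i5, integral_const_mul, integral_const_mul]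
      ring
    rw [← h1]
    exact integral_nonneg fun x => sq_nonneg _
  have h2 := discrim_le_zero key
  unfold discrim at h2
  nlinarith

theorem l_seq (L : ℝ) (hL : 0 ≤ L) (β γ : Measure (Eu d)) (hβ : Sp L β) (hγ : Sp L γ)
    (j : Fin d) : ∃ (z κ : ℕ → Eu d → ℝ) (μ : ℕ → ℝ), z 0 = co L γ j ∧
      (∀ i, Rg β γ (z i) (κ i)) ∧ (∀ i, z (i + 1) = ad β (κ i)) ∧ (∀ i, Measurable (z i)) ∧
      (∀ i x, |z i x| ≤ 2 * L) ∧ (∀ i, ∫ x, z i x ∂γ = 0) ∧
      (∀ i l, ∫ x, z i x * z l x ∂γ = μ (i + l)) ∧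
      (∀ i l, ∫ v, κ i v * κ l v ∂(β.conv γ) = μ (i + l + 1)) ∧
      (∀ i, 0 ≤ μ i) ∧ (∀ i, μ (i + 1) ≤ μ i) ∧
      (∀ i, μ (2 * i + 2) ^ 2 ≤ μ (2 * i + 1) * μ (2 * i + 3)) ∧ μ 0 ≤ L ^ 2 := by
  have : IsProbabilityMeasure β := hβ.1.1
  have : IsProbabilityMeasure γ := hγ.1.1
  have hch : ∀ k : Eu d → ℝ, ∃ κ : Eu d → ℝ, Bm k → Rg β γ k κ := by
    intro k
    by_cases hk : Bm k
    · obtain ⟨κ, hκ⟩ := rg_ex β γ k hk
      exact ⟨κ, fun _ => hκ⟩
    · exact ⟨k, fun h => absurd h hk⟩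
  choose K hK using hch
  obtain ⟨c1, c2, c3, c4⟩ := co_bd L hL γ j
  obtain ⟨z, hz0, hzs⟩ : ∃ z : ℕ → Eu d → ℝ, z 0 = co L γ j ∧ ∀ i, z (i + 1) = ad β (K (z i)) :=
    ⟨fun i => (fun k => ad β (K k))^[i] (co L γ j), rfl,
      fun i => Function.iterate_succ_apply' _ _ _⟩
  have hb : ∀ i, Measurable (z i) ∧ ∀ x, |z i x| ≤ 2 * L := by
    intro i
    induction i with
    | zero =>
      rw [hz0]
      exact ⟨c1, c2⟩
    | succ i ih =>
      have hR := hK (z i) ⟨ih.1, 2 * L, ih.2⟩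
      rw [hzs]
      exact ad_bm β (K (z i)) hR.meas (2 * L) (hR.bd (2 * L) ih.2)
  have hBm : ∀ i, Bm (z i) := fun i => ⟨(hb i).1, 2 * L, (hb i).2⟩
  have hR : ∀ i, Rg β γ (z i) (K (z i)) := fun i => hK (z i) (hBm i)
  have hκb : ∀ i, ∀ u, |K (z i) u| ≤ 2 * L := fun i => (hR i).bd (2 * L) (hb i).2
  have hκm : ∀ i, Measurable (K (z i)) := fun i => (hR i).meas
  have hκB : ∀ i, Bm (K (z i)) := fun i => ⟨hκm i, 2 * L, hκb i⟩
  have : IsProbabilityMeasure (β.conv γ) := inferInstance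
  -- the two kinds of products
  have hQ : ∀ i l, ∫ v, K (z i) v * K (z l) v ∂(β.conv γ) = ∫ x, z i x * z (l + 1) x ∂γ := by
    intro i l
    rw [rg_adj β γ (z i) (K (z i)) (K (z l)) (hBm i) (hR i) (hκB l), hzs l]
  have hPs : ∀ i l, ∫ x, z i x * z l x ∂γ = ∫ x, z l x * z i x ∂γ := by
    intro i l
    congr 1
    funext x
    ring
  have hQs : ∀ i l, ∫ v, K (z i) v * K (z l) v ∂(β.conv γ) =
      ∫ v, K (z l) v * K (z i) v ∂(β.conv γ) := by
    intro i l
    congr 1
    funext x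
    ring
  have hP : ∀ i l, ∫ x, z i x * z l x ∂γ = ∫ x, z 0 x * z (i + l) x ∂γ := by
    intro i
    induction i with
    | zero =>
      intro l
      rw [Nat.zero_add]
    | succ i ih =>
      intro l
      rw [hPs (i + 1) l, ← hQ l i, hQs l i, hQ i l, ih (l + 1)]
      congr 2
      funext x
      have e : i + (l + 1) = i + 1 + l := by omega
      rw [e]
  have hP' : ∀ i l, ∫ v, K (z i) v * K (z l) v ∂(β.conv γ) =
      ∫ x, z 0 x * z (i + l + 1) x ∂γ := by
    intro i l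
    rw [hQ i l, hP i (l + 1)]
    rfl
  have hdec : ∀ i, ∫ x, z 0 x * z (i + 1) x ∂γ ≤ ∫ x, z 0 x * z i x ∂γ := by
    intro i
    rcases Nat.even_or_odd' i with ⟨m, hm | hm⟩
    · have e1 := hP' m m
      have e2 := hP m m
      have e3 := rg_sq β γ (z m) (K (z m)) (hBm m) (hR m)
      have e4 : m + m = i := by omega
      rw [e4] at e1 e2
      rw [← e1, ← e2]
      have e5 : (fun v => K (z m) v * K (z m) v) = fun v => K (z m) v ^ 2 := by
        funext v
        ring
      have e6 : (fun x => z m x * z m x) = fun x => z m x ^ 2 := by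
        funext v
        ring
      rw [e5, e6]
      exact e3
    · have e1 := hP (m + 1) (m + 1)
      have e2 := hP' m m
      have e3 := (ad_int β γ (K (z m)) (hκB m)).2
      have e4 : m + 1 + (m + 1) = i + 1 := by omega
      have e4' : m + m + 1 = i := by omega
      rw [e4] at e1
      rw [e4'] at e2
      rw [← e1, ← e2]
      have e5 : (fun v => K (z m) v * K (z m) v) = fun v => K (z m) v ^ 2 := by
        funext v
        ring
      have e6 : (fun x => z (m + 1) x * z (m + 1) x) = fun x => ad β (K (z m)) x ^ 2 := by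
        funext v
        rw [hzs]
        ring
      rw [e5, e6]
      exact e3
  refine ⟨z, fun i => K (z i), fun i => ∫ x, z 0 x * z i x ∂γ, hz0, hR, hzs,
    fun i => (hb i).1, fun i => (hb i).2, ?_, hP, hP', ?_, hdec, ?_, ?_⟩
  · intro i
    induction i with
    | zero =>
      rw [hz0]
      exact c3
    | succ i ih =>
      rw [hzs, (ad_int β γ (K (z i)) (hκB i)).1, rg_mean β γ (z i) (K (z i)) (hR i), ih]
  · intro i
    show 0 ≤ ∫ x, z 0 x * z i x ∂γ
    rcases Nat.even_or_odd' i with ⟨m, hm | hm⟩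
    · have e2 := hP m m
      have e4 : m + m = i := by omega
      rw [e4] at e2
      rw [← e2]
      exact integral_nonneg fun x => mul_self_nonneg _
    · have e2 := hP' m m
      have e4 : m + m + 1 = i := by omega
      rw [e4] at e2
      rw [← e2]
      exact integral_nonneg fun x => mul_self_nonneg _
  · intro i
    show (∫ x, z 0 x * z (2 * i + 2) x ∂γ) ^ 2 ≤
      (∫ x, z 0 x * z (2 * i + 1) x ∂γ) * ∫ x, z 0 x * z (2 * i + 3) x ∂γ
    have e1 := hP' i (i + 1)
    have e2 := hP' i i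
    have e3 := hP' (i + 1) (i + 1)
    have f1 : i + (i + 1) + 1 = 2 * i + 2 := by omega
    have f2 : i + i + 1 = 2 * i + 1 := by omega
    have f3 : i + 1 + (i + 1) + 1 = 2 * i + 3 := by omega
    rw [f1] at e1
    rw [f2] at e2
    rw [f3] at e3
    rw [← e1, ← e2, ← e3]
    exact ls_cs (β.conv γ) (hκm i) (hκm (i + 1)) (hκb i) (hκb (i + 1))
  · show ∫ x, z 0 x * z 0 x ∂γ ≤ L ^ 2
    rw [hz0]
    have e6 : (fun x => co L γ j x * co L γ j x) = fun x => co L γ j x ^ 2 := by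
      funext v
      ring
    rw [e6]
    exact c4

end Pool.Agent.LQ
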